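import Pool.Agent.W739.CY.Stm

/-!
# Reflection symmetry of the path function
-/

set_option autoImplicit false

namespace Pool.Agent.W366.CY

open Pool.Agent.W739.CY

variable {C : Type} [DecidableEq C]

theorem spl_congr (w : List C) : ∀ (f g : List C → C → List C → ℝ),
    (∀ v c u, w = v ++ c :: u → f v c u = g v c u) → spl f w = spl g w := by
  induction w with
  | nil => intro f g _; rfl
  | cons x w ih =>
    intro f g h
    unfold spl
    rw [h [] x w rfl, ih _ (fun v c u => g (x :: v) c u) ?_]
    intro v c u hw
    exact h (x :: v) c u (by rw [hw]; rfl)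

theorem spl_range (w : List C) : ∀ (g : List C → ℕ → ℝ),
    spl (fun v _ u => g (v ++ u) u.length) w =
      ∑ i ∈ Finset.range w.length, g (w.eraseIdx i) (w.length - 1 - i) := by
  induction w with
  | nil => intro g; simp [spl]
  | cons x w ih =>
    intro g
    unfold spl
    have := ih (fun l n => g (x :: l) n)
    simp only [List.cons_append, List.nil_append] at this ⊢
    rw [this, List.length_cons, Finset.sum_range_succ', add_comm]
    refine congrArg₂ (· + ·) (Finset.sum_congr rfl fun i _ => ?_) ?_
    · rw [List.eraseIdx_cons_succ]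
      refine congrArg _ ?_
      omega
    · rw [List.eraseIdx_cons_zero]
      rfl

/-- Properness in terms of indices. -/
def pz (w : List C) : Prop := ∀ i, i + 1 < w.length → w[i]? ≠ w[i + 1]?

theorem Pr_some (u : List C) : ∀ x : C, Pr (some x) u none ↔ pz (x :: u) := by
  induction u with
  | nil =>
    intro x
    unfold Pr ok pz
    simp
  | cons y u ih =>
    intro x
    unfold Pr ok
    rw [ih y]
    unfold pz
    constructor
    · rintro ⟨h1, h2⟩ i hi
      cases i with
      | zero =>
        rcases h1 with h1 | h1
        · exact absurd h1 (by simp)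
        · simpa using h1
      | succ i =>
        have := h2 i (by simpa using hi)
        simpa using this
    · intro h
      refine ⟨Or.inr ?_, fun i hi => ?_⟩
      · have := h 0 (by simp)
        simpa using this
      · have := h (i + 1) (by simpa using hi)
        simpa using this

theorem Pr_none (w : List C) : Pr none w none ↔ pz w := by
  cases w with
  | nil =>
    unfold Pr ok pz
    simp
  | cons x u =>
    unfold Pr
    rw [Pr_some]
    unfold ok
    simp

/-- The path function. -/
noncomputable def B (p : ℝ) (w : List C) : ℝ := F p none w none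

theorem B_zero (p : ℝ) (w : List C) (h : ¬ pz w) : B p w = 0 := by
  have h' : ¬ Pr none w none := fun h1 => h ((Pr_none w).1 h1)
  unfold B F
  cases w with
  | nil => exact if_neg h'
  | cons x u => exact if_neg h'

theorem B_rec (p : ℝ) (hp : Good p) (w : List C) (h : pz w) :
    (1 - p ^ w.length) * B p w =
      ∑ i ∈ Finset.range w.length, p ^ (w.length - 1 - i) * B p (w.eraseIdx i) := by
  have h' : Pr none w none := (Pr_none w).2 h
  cases w with
  | nil => simp
  | cons x u =>
    have e : B p (x :: u) = spl (fun v _ u' => p ^ u'.length * Fn p u.length none (v ++ u') none)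
        (x :: u) / (1 - p ^ (u.length + 1)) := if_pos h'
    rw [e, List.length_cons, mul_div_cancel₀ _ (hp.sub u.length)]
    have e2 := spl_range (x :: u) (fun l n => p ^ n * B p l)
    rw [List.length_cons] at e2
    rw [← e2]
    refine spl_congr _ _ _ fun v c u' hw => ?_
    have hl : u.length = (v ++ u').length := by
      have := congrArg List.length hw
      simp only [List.length_cons, List.length_append] at this ⊢
      omega
    rw [hl]
    rfl

theorem ers (w : List C) (t s k : ℕ) : ((w.eraseIdx t).eraseIdx s)[k]? =
    w[(if (if k < s then k else k + 1) < t then (if k < s then k else k + 1) else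
      (if k < s then k else k + 1) + 1)]? := by
  rw [List.getElem?_eraseIdx, List.getElem?_eraseIdx, List.getElem?_eraseIdx]
  split_ifs <;> rfl

theorem ers1 (w : List C) (t k : ℕ) : (w.eraseIdx t)[k]? = w[(if k < t then k else k + 1)]? := by
  rw [List.getElem?_eraseIdx]
  split_ifs <;> rfl

/-- The two erasures commute. -/
theorem ers_comm (w : List C) (t s : ℕ) (h : s < t) :
    (w.eraseIdx t).eraseIdx s = (w.eraseIdx s).eraseIdx (t - 1) := by
  refine List.ext_getElem? fun k => ?_
  rw [ers, ers]
  refine congrArg (fun i : ℕ => w[i]?) ?_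
  split_ifs <;> omega

theorem pz_erase (w : List C) (t : ℕ) (h : pz w) (h1 : ¬ pz (w.eraseIdx t)) :
    1 ≤ t ∧ t + 1 < w.length ∧ w[t - 1]? = w[t + 1]? := by
  unfold pz at h1
  push Not at h1
  obtain ⟨k, hk, hk2⟩ := h1
  rw [ers1, ers1] at hk2
  have hl : (w.eraseIdx t).length ≤ w.length := by
    rw [List.length_eraseIdx]
    split_ifs <;> omega
  have hl2 : t < w.length → (w.eraseIdx t).length = w.length - 1 := by
    intro ht
    rw [List.length_eraseIdx, if_pos ht]
  by_cases c1 : k + 1 < t
  · rw [if_pos (by omega), if_pos c1] at hk2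
    exact absurd hk2 (h k (by omega))
  · by_cases c2 : k < t
    · rw [if_pos c2, if_neg c1] at hk2
      have ht : t = k + 1 := by omega
      subst ht
      have : k + 1 < w.length := by omega
      have := hl2 this
      refine ⟨by omega, by omega, ?_⟩
      exact hk2
    · rw [if_neg c2, if_neg c1] at hk2
      have : t < w.length := by omega
      have := hl2 this
      exact absurd hk2 (h (k + 1) (by omega))

theorem len2 (w : List C) (n t s : ℕ) (hw : w.length = n + 1) (ht : t < n + 1) (hs : s < n) :
    ((w.eraseIdx t).eraseIdx s).length = n - 1 := by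
  have h1 : (w.eraseIdx t).length = n := by
    rw [List.length_eraseIdx, if_pos (by omega)]
    omega
  rw [List.length_eraseIdx, if_pos (by omega), h1]

/-- Far erasures of an improper word. -/
theorem far (w : List C) (n t s : ℕ) (hw : w.length = n + 1) (h1 : 1 ≤ t) (h2 : t < n)
    (h3 : w[t - 1]? = w[t + 1]?) (hs : s < n) (hs1 : s ≠ t) (hs2 : s ≠ t - 1) :
    ¬ pz ((w.eraseIdx t).eraseIdx s) := by
  intro h
  have hl := len2 w n t s hw (by omega) hs
  by_cases c : s < t
  · refine h (t - 2) (by omega) ?_
    rw [ers, ers]
    have e1 : (if (if t - 2 < s then t - 2 else t - 2 + 1) < t then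
        (if t - 2 < s then t - 2 else t - 2 + 1) else
        (if t - 2 < s then t - 2 else t - 2 + 1) + 1) = t - 1 := by
      split_ifs <;> omega
    have e2 : (if (if t - 2 + 1 < s then t - 2 + 1 else t - 2 + 1 + 1) < t then
        (if t - 2 + 1 < s then t - 2 + 1 else t - 2 + 1 + 1) else
        (if t - 2 + 1 < s then t - 2 + 1 else t - 2 + 1 + 1) + 1) = t + 1 := by
      split_ifs <;> omega
    rw [e1, e2]
    exact h3
  · refine h (t - 1) (by omega) ?_
    rw [ers, ers]
    have e1 : (if (if t - 1 < s then t - 1 else t - 1 + 1) < t then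
        (if t - 1 < s then t - 1 else t - 1 + 1) else
        (if t - 1 < s then t - 1 else t - 1 + 1) + 1) = t - 1 := by
      split_ifs <;> omega
    have e2 : (if (if t - 1 + 1 < s then t - 1 + 1 else t - 1 + 1 + 1) < t then
        (if t - 1 + 1 < s then t - 1 + 1 else t - 1 + 1 + 1) else
        (if t - 1 + 1 < s then t - 1 + 1 else t - 1 + 1 + 1) + 1) = t + 1 := by
      split_ifs <;> omega
    rw [e1, e2]
    exact h3

theorem near (w : List C) (t : ℕ) (h1 : 1 ≤ t) (h3 : w[t - 1]? = w[t + 1]?) :
    (w.eraseIdx t).eraseIdx (t - 1) = (w.eraseIdx t).eraseIdx t := by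
  refine List.ext_getElem? fun k => ?_
  rw [ers, ers]
  by_cases hk : k = t - 1
  · subst hk
    rw [if_neg (by omega : ¬ t - 1 < t - 1), if_neg (by omega : ¬ t - 1 + 1 < t),
      if_pos (by omega : t - 1 < t), if_pos (by omega : t - 1 < t)]
    rw [h3]
    refine congrArg (fun i : ℕ => w[i]?) ?_
    omega
  · refine congrArg (fun i : ℕ => w[i]?) ?_
    split_ifs <;> omega

/-- The coefficient. -/
def cf (p : ℝ) (n t s : ℕ) : ℝ := p ^ (n - t + s) - p ^ (t + n - 1 - s)

/-- Antisymmetry. -/
theorem total (p : ℝ) (w : List C) (n : ℕ) :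
    ∑ x ∈ Finset.range (n + 1) ×ˢ Finset.range n,
      cf p n x.1 x.2 * B p ((w.eraseIdx x.1).eraseIdx x.2) = 0 := by
  refine Finset.sum_involution
    (fun x _ => if x.2 < x.1 then (x.2, x.1 - 1) else (x.2 + 1, x.1)) ?_ ?_ ?_ ?_
  · rintro ⟨t, s⟩ hx
    rw [Finset.mem_product, Finset.mem_range, Finset.mem_range] at hx
    simp only at hx ⊢
    by_cases c : s < t
    · rw [if_pos c]
      simp only
      rw [ers_comm w t s c]
      unfold cf
      have e1 : s + n - 1 - (t - 1) = n - t + s := by omega
      have e2 : n - s + (t - 1) = t + n - 1 - s := by omega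
      rw [e1, e2]
      ring
    · rw [if_neg c]
      simp only
      rw [ers_comm w (s + 1) t (by omega), Nat.add_sub_cancel]
      unfold cf
      have e1 : n - (s + 1) + t = t + n - 1 - s := by omega
      have e2 : s + 1 + n - 1 - t = n - t + s := by omega
      rw [e1, e2]
      ring
  · rintro ⟨t, s⟩ hx _
    simp only
    by_cases c : s < t
    · rw [if_pos c]
      intro h
      have := (Prod.mk.inj h).1
      omega
    · rw [if_neg c]
      intro h
      have := (Prod.mk.inj h).1
      omega
  · rintro ⟨t, s⟩ hx
    rw [Finset.mem_product, Finset.mem_range, Finset.mem_range] at hx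
    simp only at hx ⊢
    by_cases c : s < t
    · rw [if_pos c, Finset.mem_product, Finset.mem_range, Finset.mem_range]
      simp only
      omega
    · rw [if_neg c, Finset.mem_product, Finset.mem_range, Finset.mem_range]
      simp only
      omega
  · rintro ⟨t, s⟩ hx
    rw [Finset.mem_product, Finset.mem_range, Finset.mem_range] at hx
    simp only at hx ⊢
    by_cases c : s < t
    · rw [if_pos c]
      simp only
      rw [if_neg (by omega)]
      refine Prod.ext ?_ rfl
      simp only
      omega
    · rw [if_neg c]
      simp only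
      rw [if_pos (by omega)]
      refine Prod.ext rfl ?_
      simp only
      omega

/-- One row. -/
theorem row (p : ℝ) (hp : Good p) (n : ℕ)
    (hL : ∀ u : List C, u.length = n → pz u → (1 - p ^ n) * B p u =
      ∑ i ∈ Finset.range n, p ^ i * B p (u.eraseIdx i))
    (w : List C) (hw : w.length = n + 1) (hz : pz w) (t : ℕ) (ht : t < n + 1) :
    ∑ s ∈ Finset.range n, cf p n t s * B p ((w.eraseIdx t).eraseIdx s) =
      (1 - p ^ n) * ((p ^ (n - t) - p ^ t) * B p (w.eraseIdx t)) := by
  have hl : (w.eraseIdx t).length = n := by
    rw [List.length_eraseIdx, if_pos (by omega)]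
    omega
  by_cases h : pz (w.eraseIdx t)
  · have e1 := B_rec p hp _ h
    have e2 := hL _ hl h
    rw [hl] at e1
    have e3 : (1 - p ^ n) * ((p ^ (n - t) - p ^ t) * B p (w.eraseIdx t)) =
        p ^ (n - t) * ((1 - p ^ n) * B p (w.eraseIdx t)) -
          p ^ t * ((1 - p ^ n) * B p (w.eraseIdx t)) := by ring
    rw [e3]
    nth_rewrite 1 [e2]
    rw [e1, Finset.mul_sum, Finset.mul_sum, ← Finset.sum_sub_distrib]
    refine Finset.sum_congr rfl fun s hs => ?_
    rw [Finset.mem_range] at hs
    unfold cf
    have e4 : t + n - 1 - s = t + (n - 1 - s) := by omega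
    rw [e4, pow_add, pow_add]
    ring
  · rw [B_zero p _ h, mul_zero, mul_zero]
    obtain ⟨h1, h2, h3⟩ := pz_erase w t hz h
    have hz2 : ∀ s ∈ Finset.range n, s ≠ t ∧ s ≠ t - 1 →
        cf p n t s * B p ((w.eraseIdx t).eraseIdx s) = 0 := by
      intro s hs hs'
      rw [Finset.mem_range] at hs
      rw [B_zero p _ (far w n t s hw h1 (by omega) h3 hs hs'.1 hs'.2), mul_zero]
    rw [Finset.sum_eq_add t (t - 1) (by omega) hz2]
    · rw [near w t h1 h3]
      unfold cf
      have e1 : n - t + t = n := by omega
      have e2 : t + n - 1 - t = n - 1 := by omega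
      have e3 : n - t + (t - 1) = n - 1 := by omega
      have e4 : t + n - 1 - (t - 1) = n := by omega
      rw [e1, e2, e3, e4]
      ring
    · intro h'
      exact absurd (Finset.mem_range.2 (by omega)) h'
    · intro h'
      exact absurd (Finset.mem_range.2 (by omega)) h'

/-- The key identity. -/
theorem key (p : ℝ) (hp : Good p) (n : ℕ) (hn : n ≠ 0)
    (hL : ∀ u : List C, u.length = n → pz u → (1 - p ^ n) * B p u =
      ∑ i ∈ Finset.range n, p ^ i * B p (u.eraseIdx i))
    (w : List C) (hw : w.length = n + 1) (hz : pz w) :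
    ∑ t ∈ Finset.range (n + 1), (p ^ (n - t) - p ^ t) * B p (w.eraseIdx t) = 0 := by
  have h1 : (1 - p ^ n) ≠ 0 := sub_ne_zero.2 (Ne.symm (hp.pow hn))
  have h2 : (1 - p ^ n) *
      ∑ t ∈ Finset.range (n + 1), (p ^ (n - t) - p ^ t) * B p (w.eraseIdx t) = 0 := by
    rw [Finset.mul_sum, ← total p w n, Finset.sum_product]
    refine Finset.sum_congr rfl fun t ht => ?_
    rw [Finset.mem_range] at ht
    exact (row p hp n hL w hw hz t ht).symm
  exact (mul_eq_zero.1 h2).resolve_left h1

theorem rev_erase (w : List C) (n i : ℕ) (hw : w.length = n + 1) (hi : i < n + 1) :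
    w.reverse.eraseIdx i = (w.eraseIdx (n - i)).reverse := by
  have hl : (w.eraseIdx (n - i)).length = n := by
    rw [List.length_eraseIdx, if_pos (by omega)]
    omega
  refine List.ext_getElem? fun k => ?_
  rw [ers1]
  by_cases hk : k < n
  · have h2 : k < (w.eraseIdx (n - i)).length := by omega
    rw [List.getElem?_reverse h2, hl, ers1]
    have h1 : (if k < i then k else k + 1) < w.length := by
      split_ifs <;> omega
    rw [List.getElem?_reverse h1]
    refine congrArg (fun i : ℕ => w[i]?) ?_
    split_ifs <;> omega
  · rw [List.getElem?_eq_none, List.getElem?_eq_none]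
    · rw [List.length_reverse, hl]
      omega
    · rw [List.length_reverse]
      split_ifs <;> omega

theorem pz_rev (w : List C) : pz w.reverse ↔ pz w := by
  have key : ∀ w : List C, pz w → pz w.reverse := by
    intro w h i hi
    rw [List.length_reverse] at hi
    rw [List.getElem?_reverse (by omega), List.getElem?_reverse (by omega)]
    have := h (w.length - 1 - (i + 1)) (by omega)
    have e : w.length - 1 - (i + 1) + 1 = w.length - 1 - i := by omega
    rw [e] at this
    exact this.symm
  refine ⟨fun h => ?_, key w⟩
  have := key _ h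
  rwa [List.reverse_reverse] at this

theorem rev_rec (p : ℝ) (hp : Good p) (n : ℕ)
    (ih : ∀ v : List C, v.length = n → B p v.reverse = B p v)
    (u : List C) (hu : u.length = n + 1) (hz : pz u) :
    (1 - p ^ (n + 1)) * B p u.reverse =
      ∑ i ∈ Finset.range (n + 1), p ^ i * B p (u.eraseIdx i) := by
  have e3 := B_rec p hp u.reverse ((pz_rev u).2 hz)
  rw [List.length_reverse, hu] at e3
  rw [e3, ← Finset.sum_range_reflect]
  refine Finset.sum_congr rfl fun i hi => ?_
  rw [Finset.mem_range] at hi
  have e4 : n + 1 - 1 - (n + 1 - 1 - i) = i := by omega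
  rw [e4, rev_erase u n _ hu (by omega)]
  have e5 : n - (n + 1 - 1 - i) = i := by omega
  rw [e5, ih]
  rw [List.length_eraseIdx, if_pos (by omega)]
  omega

theorem rev_main (p : ℝ) (hp : Good p) : ∀ (n : ℕ) (w : List C), w.length = n →
    B p w.reverse = B p w := by
  intro n
  induction n using Nat.strong_induction_on with
  | _ n ih =>
  intro w hw
  cases n with
  | zero =>
    rw [List.length_eq_zero_iff] at hw
    rw [hw]
    rfl
  | succ n =>
    by_cases hz : pz w
    · cases n with
      | zero =>
        rw [List.length_eq_one_iff] at hw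
        obtain ⟨a, ha⟩ := hw
        rw [ha]
        rfl
      | succ n =>
        have e1 := B_rec p hp w hz
        rw [hw] at e1
        have e2 := rev_rec p hp (n + 1) (fun v hv => ih (n + 1) (by omega) v hv) w hw hz
        have hL : ∀ u : List C, u.length = n + 1 → pz u → (1 - p ^ (n + 1)) * B p u =
            ∑ i ∈ Finset.range (n + 1), p ^ i * B p (u.eraseIdx i) := by
          intro u hu hzu
          have e3 := rev_rec p hp n (fun v hv => ih n (by omega) v hv) u hu hzu
          rw [ih (n + 1) (by omega) u hu] at e3
          exact e3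
        have e4 := key p hp (n + 1) (Nat.succ_ne_zero n) hL w hw hz
        have e5 : (1 - p ^ (n + 1 + 1)) * B p w - (1 - p ^ (n + 1 + 1)) * B p w.reverse = 0 := by
          rw [e1, e2, ← Finset.sum_sub_distrib, ← e4]
          refine Finset.sum_congr rfl fun t _ => ?_
          have e6 : n + 1 + 1 - 1 - t = n + 1 - t := by omega
          rw [e6]
          ring
        rw [← mul_sub] at e5
        have e7 := (mul_eq_zero.1 e5).resolve_left (hp.sub (n + 1))
        linarith
    · rw [B_zero p _ hz, B_zero p _ (fun h => hz ((pz_rev w).1 h))]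

theorem t_WREV : S_WREV := by
  intro C _ p hp w
  exact rev_main p hp w.length w rfl

end Pool.Agent.W366.CY
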